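import Mathlib

namespace Pool.Agent.P.MP_dcacc7_lc

/-- Formulae: sentence letters (indexed by naturals), negation, conjunction, disjunction, arrow. -/
inductive Fm : Type
  | letter : ℕ → Fm
  | neg : Fm → Fm
  | conj : Fm → Fm → Fm
  | disj : Fm → Fm → Fm
  | imp : Fm → Fm → Fm

/-- Classical truth under a valuation, the arrow being read as the material conditional. -/
def Fm.Holds (v : ℕ → Prop) : Fm → Prop
  | .letter n => v n
  | .neg a => ¬ a.Holds v
  | .conj a b => a.Holds v ∧ b.Holds v
  | .disj a b => a.Holds v ∨ b.Holds v
  | .imp a b => ¬ a.Holds v ∨ b.Holds v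

/-- The set of sentence letters occurring in a formula. -/
def Fm.letters : Fm → Finset ℕ
  | .letter n => {n}
  | .neg a => a.letters
  | .conj a b => a.letters ∪ b.letters
  | .disj a b => a.letters ∪ b.letters
  | .imp a b => a.letters ∪ b.letters

/-- A node of a branch.  A branch is the list of its nodes from the root (position 0) on.
`inputs` are the positions of the inputs; `partner` is `some p` exactly for a critical node,
`p` being the position of its partner. -/
structure Node : Type where
  label : Fm
  inputs : List ℕ
  partner : Option ℕ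

/-- The node at position `i` of the branch `B` exists and is labelled `a`. -/
def LabelAt (B : List Node) (i : ℕ) (a : Fm) : Prop :=
  ∃ x : Node, B[i]? = some x ∧ x.label = a

/-- `InTrace B n m`: position `m` belongs to the trace of position `n` (the least set containing
`n` and the inputs of each of its members). -/
inductive InTrace (B : List Node) (n : ℕ) : ℕ → Prop
  | self : InTrace B n n
  | input (m k : ℕ) (x : Node) : InTrace B n m → B[m]? = some x → k ∈ x.inputs → InTrace B n k

/-- The branch `B` crashes with parity. -/
def CrashesWithParity (B : List Node) : Prop :=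
  ∃ (i j : ℕ) (z : Fm), LabelAt B i z ∧ LabelAt B j (.neg z) ∧
    ∀ (c p : ℕ) (x : Node), B[c]? = some x → x.partner = some p →
      ((InTrace B i c ∨ InTrace B j c) ↔ (InTrace B i p ∨ InTrace B j p))

/-- `Closes A B`: the initial branch segment `B` can be continued to a finite tree, by the rules
(the recursive rule being used with the set `A`), all of whose branches crash with parity. -/
inductive Closes (A : Set Fm) : List Node → Prop
  | crash (B : List Node) : CrashesWithParity B → Closes A B
  | conj (B : List Node) (i : ℕ) (a b : Fm) : LabelAt B i (.conj a b) →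
      Closes A (B ++ [⟨a, [i], none⟩, ⟨b, [i], none⟩]) → Closes A B
  | negDisj (B : List Node) (i : ℕ) (a b : Fm) : LabelAt B i (.neg (.disj a b)) →
      Closes A (B ++ [⟨.neg a, [i], none⟩, ⟨.neg b, [i], none⟩]) → Closes A B
  | negNeg (B : List Node) (i : ℕ) (a : Fm) : LabelAt B i (.neg (.neg a)) →
      Closes A (B ++ [⟨a, [i], none⟩]) → Closes A B
  | negConj (B : List Node) (i : ℕ) (a b : Fm) : LabelAt B i (.neg (.conj a b)) →
      Closes A (B ++ [⟨.neg a, [i], none⟩]) → Closes A (B ++ [⟨.neg b, [i], none⟩]) → Closes A B
  | disj (B : List Node) (i : ℕ) (a b : Fm) : LabelAt B i (.disj a b) →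
      Closes A (B ++ [⟨a, [i], none⟩]) → Closes A (B ++ [⟨b, [i], none⟩]) → Closes A B
  | modusPonens (B : List Node) (i j : ℕ) (a b : Fm) : LabelAt B i a → LabelAt B j (.imp a b) →
      Closes A (B ++ [⟨b, [i, j], none⟩]) → Closes A B
  | counterCase (B : List Node) (i : ℕ) (a b : Fm) : LabelAt B i (.neg (.imp a b)) →
      Closes A (B ++ [⟨a, [i], some (B.length + 1)⟩, ⟨.neg b, [i], some B.length⟩]) → Closes A B
  | recursive (B : List Node) (i : ℕ) (a b : Fm) : LabelAt B i a → Fm.imp a b ∈ A →
      Closes A (B ++ [⟨b, [i], none⟩]) → Closes A B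

/-- The acceptable formulae: the least set `A` containing every formula `a` that has a truth-tree
(root labelled by the negation of `a`), built with the recursive rule for `A`, all of whose
branches crash with parity. -/
def Acceptable : Set Fm :=
  ⋂₀ {A : Set Fm | ∀ a : Fm, Closes A [⟨.neg a, [], none⟩] → a ∈ A}

end Pool.Agent.P.MP_dcacc7_lc
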