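import Pool.Agent.P.MP_dcacc7_lc.Sound

/-! Soundness of acceptability for power-set frames, and the Dugundji formulae. -/

set_option autoImplicit false

namespace Pool.Agent.P.MP_dcacc7_lc.Pw

open Classical

/-- truth of a formula at a set of natural numbers -/
def Sat (v : ℕ → Set (Set ℕ)) : Fm → Set ℕ → Prop
  | .letter n, x => x ∈ v n
  | .neg a, x => ¬ Sat v a xᶜ
  | .conj a b, x => Sat v a x ∧ Sat v b x
  | .disj a b, x => Sat v a x ∨ Sat v b x
  | .imp a b, x => ∀ y, Sat v a y → Sat v b (x ∪ y)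

variable {v : ℕ → Set (Set ℕ)}

theorem Sat.down (hv : ∀ n x y, x ∈ v n → y ⊆ x → y ∈ v n) (a : Fm) :
    ∀ x y, Sat v a x → y ⊆ x → Sat v a y := by
  induction a with
  | letter n => exact hv n
  | neg a ih => exact fun x y h hy h' => h (ih _ _ h' (Set.compl_subset_compl.2 hy))
  | conj a b iha ihb => exact fun x y h hy => ⟨iha _ _ h.1 hy, ihb _ _ h.2 hy⟩
  | disj a b iha ihb => exact fun x y h hy => h.imp (fun h => iha _ _ h hy) fun h => ihb _ _ h hy
  | imp a b _ ihb =>
    exact fun x y h hy z hz => ihb _ _ (h z hz) (Set.union_subset_union_left _ hy)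

/-- the branch carries sets which make its labels true and pass every point on -/
def Good (v : ℕ → Set (Set ℕ)) (B : List Node) : Prop :=
  WF B ∧ ∃ d : ℕ → Set ℕ, (∀ k, Prop1 B fun m => decide (k ∈ d m)) ∧
    ∀ (m : ℕ) (x : Node), B[m]? = some x → Sat v x.label (d m)

theorem sat_label {B : List Node} {d : ℕ → Set ℕ}
    (h : ∀ (m : ℕ) (x : Node), B[m]? = some x → Sat v x.label (d m)) {i : ℕ} {a : Fm}
    (hi : LabelAt B i a) : Sat v a (d i) := by
  obtain ⟨x, hx, rfl⟩ := hi
  exact h i x hx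

theorem good_add {B N : List Node} (hB : WF B) {d : ℕ → Set ℕ}
    (hd : ∀ k, Prop1 B fun m => decide (k ∈ d m))
    (hv : ∀ (m : ℕ) (x : Node), B[m]? = some x → Sat v x.label (d m)) (e : ℕ → Set ℕ)
    (h1 : ∀ x ∈ N, (∀ k ∈ x.inputs, k < B.length) ∧ x.inputs ≠ [])
    (h2 : ∀ j x, N[j]? = some x → Sat v x.label (e j))
    (h3 : ∀ j x, N[j]? = some x → ∀ i ∈ x.inputs, ∀ k ∈ d i, k ∈ e j ∨
      ∃ j', x.partner = some (B.length + j') ∧ j' < N.length ∧ k ∈ e j') :
    Good v (B ++ N) := by
  refine ⟨hB.append h1, fun m => if m < B.length then d m else e (m - B.length), fun k => ?_, ?_⟩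
  · refine (hd k).append hB (fun m hm => by simp [hm]) fun j x hx i hi hk => ?_
    have hil := (h1 x (List.mem_of_getElem? hx)).1 i hi
    simp only [hil, if_true, decide_eq_true_eq] at hk
    rcases h3 j x hx i hi k hk with h | ⟨j', a, b, c⟩
    · left
      simpa using h
    · right
      exact ⟨_, a, by omega, by simpa using b, by simpa using c⟩
  · intro m x hx
    rcases getElem?_append_cases hx with ⟨hm, h⟩ | ⟨j, rfl, h⟩
    · simpa [hm] using hv m x h
    · simpa using h2 j x h

theorem good_one {B : List Node} (hB : WF B) {d : ℕ → Set ℕ}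
    (hd : ∀ k, Prop1 B fun m => decide (k ∈ d m))
    (hv : ∀ (m : ℕ) (x : Node), B[m]? = some x → Sat v x.label (d m)) (a : Fm) (I : List ℕ)
    (hI : I ≠ []) (hI' : ∀ k ∈ I, k < B.length) (e : Set ℕ) (he : ∀ i ∈ I, d i ⊆ e)
    (ha : Sat v a e) : Good v (B ++ [⟨a, I, none⟩]) := by
  refine good_add hB hd hv (fun _ => e) ?_ ?_ ?_
  · intro x hx
    rw [List.mem_singleton.1 hx]
    exact ⟨hI', hI⟩
  · intro j x hx
    obtain ⟨rfl, rfl⟩ := single_cases hx
    exact ha
  · intro j x hx i hi k hk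
    obtain ⟨rfl, rfl⟩ := single_cases hx
    exact Or.inl (he i hi hk)

theorem good_two {B : List Node} (hB : WF B) {d : ℕ → Set ℕ}
    (hd : ∀ k, Prop1 B fun m => decide (k ∈ d m))
    (hv : ∀ (m : ℕ) (x : Node), B[m]? = some x → Sat v x.label (d m)) (a b : Fm) (i : ℕ)
    (hi : i < B.length) (p q : Option ℕ) (e f : Set ℕ) (ha : Sat v a e) (hb : Sat v b f)
    (h : (d i ⊆ e ∧ d i ⊆ f) ∨
      (p = some (B.length + 1) ∧ q = some B.length ∧ d i ⊆ e ∪ f)) :
    Good v (B ++ [⟨a, [i], p⟩, ⟨b, [i], q⟩]) := by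
  refine good_add hB hd hv (fun j => if j = 0 then e else f) ?_ ?_ ?_
  · intro x hx
    simp only [List.mem_cons, List.not_mem_nil, or_false] at hx
    rcases hx with rfl | rfl <;> simpa using hi
  · intro j x hx
    rcases pair_cases hx with ⟨rfl, rfl⟩ | ⟨rfl, rfl⟩
    · simpa using ha
    · simpa using hb
  · intro j x hx i' hi' k hk
    rcases pair_cases hx with ⟨rfl, rfl⟩ | ⟨rfl, rfl⟩
    · rw [List.mem_singleton.1 hi'] at hk
      rcases h with h | ⟨rfl, rfl, h⟩
      · exact Or.inl (by simpa using h.1 hk)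
      · rcases h hk with h | h
        · exact Or.inl (by simpa using h)
        · exact Or.inr ⟨1, rfl, by simp, by simpa using h⟩
    · rw [List.mem_singleton.1 hi'] at hk
      rcases h with h | ⟨rfl, rfl, h⟩
      · exact Or.inl (by simpa using h.2 hk)
      · rcases h hk with h | h
        · exact Or.inr ⟨0, rfl, by simp, by simpa using h⟩
        · exact Or.inl (by simpa using h)

theorem not_good (hdn : ∀ n x y, x ∈ v n → y ⊆ x → y ∈ v n) {A : Set Fm}
    (hA : ∀ a ∈ A, Sat v a ∅) {B : List Node} (h : Closes A B) : ¬ Good v B := by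
  induction h with
  | crash B h =>
    rintro ⟨hB, d, hd, hv⟩
    obtain ⟨i, j, z, hi, hj, hpar⟩ := h
    refine sat_label hv hj (Sat.down hdn z _ _ (sat_label hv hi) fun k hk => ?_)
    rcases demand_reaches hB (hd k) hi.lt hpar with h | h
    · simpa using h
    · exact (hk (by simpa using h)).elim
  | conj B i a b hi _ ih =>
    rintro ⟨hB, d, hd, hv⟩
    have := sat_label hv hi
    exact ih (good_two hB hd hv a b i hi.lt none none _ _ this.1 this.2
      (Or.inl ⟨subset_rfl, subset_rfl⟩))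
  | negDisj B i a b hi _ ih =>
    rintro ⟨hB, d, hd, hv⟩
    have := sat_label hv hi
    exact ih (good_two hB hd hv (.neg a) (.neg b) i hi.lt none none (d i) (d i)
      (fun h => this (Or.inl h)) (fun h => this (Or.inr h)) (Or.inl ⟨subset_rfl, subset_rfl⟩))
  | negNeg B i a hi _ ih =>
    rintro ⟨hB, d, hd, hv⟩
    have := sat_label hv hi
    refine ih (good_one hB hd hv a [i] (by simp) (by simpa using hi.lt) (d i) (by simp) ?_)
    by_contra hc
    exact this fun h => hc (by rwa [compl_compl] at h)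
  | negConj B i a b hi _ _ ih1 ih2 =>
    rintro ⟨hB, d, hd, hv⟩
    rcases not_and_or.1 (sat_label hv hi) with h | h
    · exact ih1 (good_one hB hd hv (.neg a) [i] (by simp) (by simpa using hi.lt) (d i)
        (by simp) h)
    · exact ih2 (good_one hB hd hv (.neg b) [i] (by simp) (by simpa using hi.lt) (d i)
        (by simp) h)
  | disj B i a b hi _ _ ih1 ih2 =>
    rintro ⟨hB, d, hd, hv⟩
    rcases sat_label hv hi with h | h
    · exact ih1 (good_one hB hd hv a [i] (by simp) (by simpa using hi.lt) (d i) (by simp) h)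
    · exact ih2 (good_one hB hd hv b [i] (by simp) (by simpa using hi.lt) (d i) (by simp) h)
  | modusPonens B i j a b hi hj _ ih =>
    rintro ⟨hB, d, hd, hv⟩
    exact ih (good_one hB hd hv b [i, j] (by simp) (by simpa using ⟨hi.lt, hj.lt⟩)
      (d j ∪ d i) (by simp) (sat_label hv hj _ (sat_label hv hi)))
  | counterCase B i a b hi _ ih =>
    rintro ⟨hB, d, hd, hv⟩
    have h0 : ¬ ∀ y, Sat v a y → Sat v b ((d i)ᶜ ∪ y) := sat_label hv hi
    obtain ⟨y, hy⟩ := not_forall.1 h0
    obtain ⟨h1, h2⟩ := Classical.not_imp.1 hy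
    refine ih (good_two hB hd hv a (.neg b) i hi.lt _ _ y ((d i)ᶜ ∪ y)ᶜ h1
      (fun h => h2 (by rwa [compl_compl] at h)) (Or.inr ⟨rfl, rfl, fun k hk => ?_⟩))
    by_cases hy : k ∈ y
    · exact Or.inl hy
    · exact Or.inr fun h => h.elim (fun h => h hk) hy
  | recursive B i a b hi hab _ ih =>
    rintro ⟨hB, d, hd, hv⟩
    refine ih (good_one hB hd hv b [i] (by simp) (by simpa using hi.lt) (d i) (by simp) ?_)
    have := hA _ hab _ (sat_label hv hi)
    rwa [Set.empty_union] at this

/-- every acceptable formula is true at the empty set -/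
theorem sound (hdn : ∀ n x y, x ∈ v n → y ⊆ x → y ∈ v n) {a : Fm} (ha : a ∈ Acceptable) :
    Sat v a ∅ := by
  have : {b : Fm | Sat v b ∅} ∈
      {A : Set Fm | ∀ a : Fm, Closes A [⟨.neg a, [], none⟩] → a ∈ A} := by
    intro b hb
    by_contra h0
    refine not_good hdn (fun _ h => h) hb ⟨⟨by simp, ?_⟩, fun _ => Set.univ, fun k => ?_, ?_⟩
    · intro m x hx
      obtain ⟨rfl, rfl⟩ := single_cases hx
      simp
    · exact ⟨by simp, fun _ _ _ _ _ _ => Or.inl (by simp)⟩
    · intro m x hx
      obtain ⟨rfl, rfl⟩ := single_cases hx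
      intro h
      rw [Set.compl_univ] at h
      exact h0 h
  exact ha _ this

/-- disjunctions with a disjunct of the form `z → z` -/
inductive Has : Fm → Prop
  | base (z : Fm) : Has (.imp z z)
  | left (a b : Fm) : Has a → Has (.disj a b)
  | right (a b : Fm) : Has b → Has (.disj a b)

theorem closes_of_has (A : Set Fm) {a : Fm} (h : Has a) : ∀ (B : List Node) (i : ℕ),
    (∀ x ∈ B, x.partner = none) → LabelAt B i (.neg a) → Closes A B := by
  have step : ∀ (B : List Node) (i : ℕ) (a b : Fm), (∀ x ∈ B, x.partner = none) →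
      ∀ x ∈ B ++ [⟨.neg a, [i], none⟩, ⟨.neg b, [i], none⟩], x.partner = none := by
    intro B i a b hB x hx
    simp only [List.mem_append, List.mem_cons, List.not_mem_nil, or_false] at hx
    rcases hx with hx | rfl | rfl
    · exact hB x hx
    · rfl
    · rfl
  induction h with
  | base z =>
    intro B i hB hi
    refine Closes.counterCase B i z z hi (Closes.crash _ ⟨B.length, B.length + 1, z,
      ⟨⟨z, [i], some (B.length + 1)⟩, by simp, rfl⟩,
      ⟨⟨.neg z, [i], some B.length⟩, by simp, rfl⟩, fun c p x hx hp => ?_⟩)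
    rcases getElem?_append_cases hx with ⟨_, h⟩ | ⟨j, rfl, h⟩
    · rw [hB x (List.mem_of_getElem? h)] at hp
      exact absurd hp (by simp)
    · rcases pair_cases h with ⟨rfl, rfl⟩ | ⟨rfl, rfl⟩
      · obtain rfl : B.length + 1 = p := by simpa using hp
        exact ⟨fun _ => Or.inr InTrace.self, fun _ => Or.inl InTrace.self⟩
      · obtain rfl : B.length = p := by simpa using hp
        exact ⟨fun _ => Or.inl InTrace.self, fun _ => Or.inr InTrace.self⟩
  | left a b _ ih =>
    intro B i hB hi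
    exact Closes.negDisj B i a b hi (ih _ B.length (step B i a b hB)
      ⟨⟨.neg a, [i], none⟩, by simp, rfl⟩)
  | right a b _ ih =>
    intro B i hB hi
    exact Closes.negDisj B i a b hi (ih _ (B.length + 1) (step B i a b hB)
      ⟨⟨.neg b, [i], none⟩, by simp, rfl⟩)

theorem acceptable_of_has {a : Fm} (h : Has a) : a ∈ Acceptable := fun A hA =>
  hA a (closes_of_has A h _ 0 (by simp) ⟨_, rfl, rfl⟩)

/-- the disjunction of the implications between the letters named by a list of pairs -/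
def dug (f : ℕ → ℕ) : List (ℕ × ℕ) → Fm
  | [] => .imp (.letter (f 0)) (.letter (f 1))
  | p :: l => .disj (.imp (.letter (f p.1)) (.letter (f p.2))) (dug f l)

theorem has_dug (f : ℕ → ℕ) (l : List (ℕ × ℕ)) {p : ℕ × ℕ} (hp : p ∈ l) (h : f p.1 = f p.2) :
    Has (dug f l) := by
  induction l with
  | nil => simp at hp
  | cons q l ih =>
    rcases List.mem_cons.1 hp with rfl | hp
    · refine Has.left _ _ ?_
      rw [h]
      exact Has.base _
    · exact Has.right _ _ (ih hp)

theorem not_sat_dug (l : List (ℕ × ℕ)) (hl : ∀ p ∈ l, p.1 ≠ p.2) :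
    ¬ Sat (fun n => {x | x ⊆ {n}}) (dug id l) ∅ := by
  have key : ∀ i j : ℕ, i ≠ j →
      ¬ Sat (fun n => {x | x ⊆ {n}}) (.imp (.letter i) (.letter j)) ∅ := by
    intro i j hij h
    have h1 : (∅ ∪ {i} : Set ℕ) ⊆ {j} := h {i} (subset_rfl : ({i} : Set ℕ) ⊆ {i})
    exact hij (by simpa using h1)
  induction l with
  | nil => exact key 0 1 (by omega)
  | cons q l ih =>
    rintro (h | h)
    · exact key _ _ (hl q List.mem_cons_self) h
    · exact ih (fun p hp => hl p (List.mem_cons_of_mem _ hp)) h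

theorem dug_not_acceptable (l : List (ℕ × ℕ)) (hl : ∀ p ∈ l, p.1 ≠ p.2) :
    dug id l ∉ Acceptable := fun h =>
  not_sat_dug l hl (sound (v := fun n => {x | x ⊆ {n}})
    (fun _ _ _ hx hy => Set.Subset.trans hy hx) h)

theorem eval_dug {M : Type} (dj im : M → M → M) (e : Fm → M)
    (h1 : ∀ a b, e (.disj a b) = dj (e a) (e b)) (h2 : ∀ a b, e (.imp a b) = im (e a) (e b))
    (f g : ℕ → ℕ) (h : ∀ n, e (.letter (f n)) = e (.letter (g n))) (l : List (ℕ × ℕ)) :
    e (dug f l) = e (dug g l) := by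
  induction l with
  | nil => simp only [dug, h2, h]
  | cons q l ih => simp only [dug, h1, h2, h, ih]

theorem holds_dug (w : ℕ → Prop) (l : List (ℕ × ℕ)) (h1 : (0, 1) ∈ l) (h2 : (1, 0) ∈ l) :
    (dug id l).Holds w := by
  have key : ∀ (l : List (ℕ × ℕ)) (p : ℕ × ℕ), p ∈ l → (¬ w p.1 ∨ w p.2) → (dug id l).Holds w := by
    intro l p hp h
    induction l with
    | nil => simp at hp
    | cons q l ih =>
      rcases List.mem_cons.1 hp with rfl | hp
      · exact Or.inl h
      · exact Or.inr (ih hp)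
  by_cases h0 : w 0
  · exact key l _ h2 (Or.inr h0)
  · exact key l _ h1 (Or.inl h0)

/-- a finite matrix validates a Dugundji formula as soon as it validates `A` -/
theorem exists_dug (M : Type) [Finite M] : ∃ l : List (ℕ × ℕ), (∀ p ∈ l, p.1 ≠ p.2) ∧
    (0, 1) ∈ l ∧ (1, 0) ∈ l ∧ ∀ c : ℕ → M, ∃ p ∈ l, c p.1 = c p.2 := by
  obtain ⟨n, ⟨e⟩⟩ := Finite.exists_equiv_fin M
  refine ⟨((List.range (n + 2)).product (List.range (n + 2))).filter fun p => p.1 ≠ p.2,
    fun p hp => by simpa using (List.mem_filter.1 hp).2, by simp, by simp, fun c => ?_⟩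
  obtain ⟨i, j, hij, h⟩ := Fintype.exists_ne_map_eq_of_card_lt
    (fun i : Fin (n + 2) => e (c i)) (by simp)
  refine ⟨(i, j), ?_, e.injective h⟩
  have : (i : ℕ) ≠ j := fun h => hij (Fin.ext h)
  simp [this]

end Pool.Agent.P.MP_dcacc7_lc.Pw
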