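import Pool.Agent.P.MP_dcacc7_lc.Defs

/-! Soundness of acceptability for the six-element crystal matrix. -/

namespace Pool.Agent.P.MP_dcacc7_lc

def cneg (x : Fin 6) : Fin 6 := if x = 2 then 2 else if x = 3 then 3 else 5 - x
def cmeet (x y : Fin 6) : Fin 6 := if (x = 2 ∧ y = 3) ∨ (x = 3 ∧ y = 2) then 1 else min x y
def cjoin (x y : Fin 6) : Fin 6 := if (x = 2 ∧ y = 3) ∨ (x = 3 ∧ y = 2) then 4 else max x y
def cfus (x y : Fin 6) : Fin 6 :=
  if x = 0 ∨ y = 0 then 0 else if x = 1 then y else if y = 1 then x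
  else if x = y ∧ (x = 2 ∨ x = 3) then x else 5
def cimp (x y : Fin 6) : Fin 6 := cneg (cfus x (cneg y))

def val (v : ℕ → Fin 6) : Fm → Fin 6
  | .letter n => v n
  | .neg a => cneg (val v a)
  | .conj a b => cmeet (val v a) (val v b)
  | .disj a b => cjoin (val v a) (val v b)
  | .imp a b => cimp (val v a) (val v b)

/-- the value `x` meets the demand `(s, t)` -/
def ok (x : Fin 6) (s t : Bool) : Prop :=
  x ≠ 0 ∧ (s = true → x = 2 ∨ x = 4 ∨ x = 5) ∧ (t = true → x = 3 ∨ x = 4 ∨ x = 5) ∧
    (s = true → t = true → x = 5)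

instance (x : Fin 6) (s t : Bool) : Decidable (ok x s t) := by unfold ok; infer_instance

theorem ok_conj : ∀ (x y : Fin 6) (s t : Bool), ok (cmeet x y) s t → ok x s t ∧ ok y s t := by
  decide +kernel
theorem ok_negDisj : ∀ (x y : Fin 6) (s t : Bool), ok (cneg (cjoin x y)) s t →
    ok (cneg x) s t ∧ ok (cneg y) s t := by decide +kernel
theorem ok_negNeg : ∀ (x : Fin 6) (s t : Bool), ok (cneg (cneg x)) s t → ok x s t := by
  decide +kernel
theorem ok_negConj : ∀ (x y : Fin 6) (s t : Bool), ok (cneg (cmeet x y)) s t →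
    ok (cneg x) s t ∨ ok (cneg y) s t := by decide +kernel
theorem ok_disj : ∀ (x y : Fin 6) (s t : Bool), ok (cjoin x y) s t → ok x s t ∨ ok y s t := by
  decide +kernel
theorem ok_mp : ∀ (x y : Fin 6) (s t s' t' : Bool), ok x s t → ok (cimp x y) s' t' →
    ok y (s || s') (t || t') := by decide +kernel
set_option synthInstance.maxSize 4096 in
theorem ok_counter : ∀ (x y : Fin 6) (s t : Bool), ok (cneg (cimp x y)) s t →
    ∃ s1 t1 s2 t2 : Bool, ok x s1 t1 ∧ ok (cneg y) s2 t2 ∧ (s = true → s1 = true ∨ s2 = true) ∧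
      (t = true → t1 = true ∨ t2 = true) := by decide +kernel
theorem ok_rec : ∀ (x y : Fin 6) (s t : Bool), ok x s t → cimp x y ≠ 0 → ok y s t := by
  decide +kernel
theorem ok_crash : ∀ (x : Fin 6) (s t s' t' : Bool), ok x s t → ok (cneg x) s' t' →
    (s = true ∨ s' = true) → (t = true ∨ t' = true) → False := by decide +kernel
theorem ok_root : ∀ x : Fin 6, x = 0 → ok (cneg x) true true := by decide +kernel

/-- Propagation of one demand `d` along the branch. -/
def Prop1 (B : List Node) (d : ℕ → Bool) : Prop :=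
  d 0 = true ∧ ∀ (m : ℕ) (x : Node), B[m]? = some x → ∀ k ∈ x.inputs, d k = true →
    (d m = true ∨ ∃ p, x.partner = some p ∧ k < p ∧ p < B.length ∧ d p = true)

/-- Structural well-formedness of a branch. -/
def WF (B : List Node) : Prop :=
  0 < B.length ∧ ∀ (m : ℕ) (x : Node), B[m]? = some x →
    (∀ k ∈ x.inputs, k < m) ∧ (0 < m → x.inputs ≠ [])

def Vals (v : ℕ → Fin 6) (B : List Node) (s t : ℕ → Bool) : Prop :=
  ∀ (m : ℕ) (x : Node), B[m]? = some x → ok (val v x.label) (s m) (t m)

theorem InTrace.trans' {B : List Node} {n m k : ℕ} (h1 : InTrace B n m) (h2 : InTrace B m k) :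
    InTrace B n k := by
  induction h2 with
  | self => exact h1
  | input m' k' x _ hx hk ih => exact InTrace.input m' k' x ih hx hk

theorem root_inTrace {B : List Node} (hB : WF B) : ∀ n, n < B.length → InTrace B n 0 := by
  intro n
  induction n using Nat.strong_induction_on with
  | _ n ih =>
    intro hn
    rcases Nat.eq_zero_or_pos n with rfl | hpos
    · exact InTrace.self
    · have hx : B[n]? = some B[n] := List.getElem?_eq_getElem hn
      obtain ⟨h1, h2⟩ := hB.2 n _ hx
      obtain ⟨k, hk⟩ := List.exists_mem_of_ne_nil _ (h2 hpos)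
      have hkn := h1 k hk
      exact (InTrace.input n k _ InTrace.self hx hk).trans' (ih k hkn (hkn.trans hn))

theorem InTrace.cases' {B : List Node} {n k : ℕ} (h : InTrace B n k) :
    k = n ∨ ∃ m x, InTrace B n m ∧ B[m]? = some x ∧ k ∈ x.inputs := by
  cases h with
  | self => exact Or.inl rfl
  | input m k x h1 h2 h3 => exact Or.inr ⟨m, x, h1, h2, h3⟩

/-- With parity, a demand reaches the crash pair. -/
theorem demand_reaches {B : List Node} (hB : WF B) {d : ℕ → Bool} (hd : Prop1 B d) {i j : ℕ}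
    (hi : i < B.length)
    (hpar : ∀ (c p : ℕ) (x : Node), B[c]? = some x → x.partner = some p →
      ((InTrace B i c ∨ InTrace B j c) ↔ (InTrace B i p ∨ InTrace B j p))) :
    d i = true ∨ d j = true := by
  have key : ∀ r k, B.length - k ≤ r → (InTrace B i k ∨ InTrace B j k) → d k = true →
      k < B.length → d i = true ∨ d j = true := by
    intro r
    induction r with
    | zero => intro k h1 _ _ h2; omega
    | succ r ih =>
      intro k h1 hk hdk hkl
      have step : ∀ m x, (InTrace B i m ∨ InTrace B j m) → B[m]? = some x → k ∈ x.inputs →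
          d i = true ∨ d j = true := by
        intro m x hm hx hkx
        have hkm : k < m := (hB.2 m x hx).1 k hkx
        have hml : m < B.length := by
          by_contra hc
          rw [List.getElem?_eq_none (by omega)] at hx
          exact absurd hx (by simp)
        rcases hd.2 m x hx k hkx hdk with h | ⟨p, hp, hkp, hpl, hdp⟩
        · exact ih m (by omega) hm h hml
        · exact ih p (by omega) ((hpar m p x hx hp).1 hm) hdp hpl
      rcases hk with hk | hk
      · rcases hk.cases' with rfl | ⟨m, x, h1, h2, h3⟩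
        · exact Or.inl hdk
        · exact step m x (Or.inl h1) h2 h3
      · rcases hk.cases' with rfl | ⟨m, x, h1, h2, h3⟩
        · exact Or.inr hdk
        · exact step m x (Or.inr h1) h2 h3
  exact key B.length 0 (by omega) (Or.inl (root_inTrace hB i hi)) hd.1 hB.1

theorem LabelAt.lt {B : List Node} {i : ℕ} {a : Fm} (h : LabelAt B i a) : i < B.length := by
  obtain ⟨x, hx, _⟩ := h
  by_contra hc
  rw [List.getElem?_eq_none (by omega)] at hx
  exact absurd hx (by simp)

theorem Vals.label {v : ℕ → Fin 6} {B : List Node} {s t : ℕ → Bool} (h : Vals v B s t) {i : ℕ}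
    {a : Fm} (hi : LabelAt B i a) : ok (val v a) (s i) (t i) := by
  obtain ⟨x, hx, rfl⟩ := hi
  exact h i x hx

/-- the demand function extended by two more values -/
def ext2 (n : ℕ) (d : ℕ → Bool) (e1 e2 : Bool) : ℕ → Bool :=
  fun m => if m = n then e1 else if m = n + 1 then e2 else d m

theorem ext2_lt {n : ℕ} {d : ℕ → Bool} {e1 e2 : Bool} {m : ℕ} (h : m < n) :
    ext2 n d e1 e2 m = d m := by
  unfold ext2; rw [if_neg (by omega), if_neg (by omega)]

theorem ext2_n {n : ℕ} {d : ℕ → Bool} {e1 e2 : Bool} : ext2 n d e1 e2 n = e1 := by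
  simp [ext2]

theorem ext2_succ {n : ℕ} {d : ℕ → Bool} {e1 e2 : Bool} : ext2 n d e1 e2 (n + 1) = e2 := by
  simp [ext2]

theorem getElem?_append_cases {B N : List Node} {m : ℕ} {x : Node} (h : (B ++ N)[m]? = some x) :
    (m < B.length ∧ B[m]? = some x) ∨ (∃ j, m = B.length + j ∧ N[j]? = some x) := by
  by_cases hm : m < B.length
  · left; rw [List.getElem?_append_left hm] at h; exact ⟨hm, h⟩
  · right
    rw [List.getElem?_append_right (by omega)] at h
    exact ⟨m - B.length, by omega, h⟩

theorem WF.append {B N : List Node} (hB : WF B)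
    (hN : ∀ x ∈ N, (∀ k ∈ x.inputs, k < B.length) ∧ x.inputs ≠ []) : WF (B ++ N) := by
  refine ⟨by have := hB.1; simp; omega, fun m x hx => ?_⟩
  rcases getElem?_append_cases hx with ⟨_, h⟩ | ⟨j, rfl, h⟩
  · exact hB.2 m x h
  · have := hN x (List.mem_of_getElem? h)
    exact ⟨fun k hk => by have := this.1 k hk; omega, fun _ => this.2⟩

theorem Prop1.append {B N : List Node} (hB : WF B) {d d' : ℕ → Bool} (hd : Prop1 B d)
    (hag : ∀ m < B.length, d' m = d m)
    (hN : ∀ j x, N[j]? = some x → ∀ k ∈ x.inputs, d' k = true →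
      (d' (B.length + j) = true ∨
        ∃ p, x.partner = some p ∧ k < p ∧ p < (B ++ N).length ∧ d' p = true)) :
    Prop1 (B ++ N) d' := by
  refine ⟨by rw [hag 0 hB.1]; exact hd.1, fun m x hx k hk hdk => ?_⟩
  rcases getElem?_append_cases hx with ⟨hm, h⟩ | ⟨j, rfl, h⟩
  · have hkm := (hB.2 m x h).1 k hk
    rw [hag k (by omega)] at hdk
    rcases hd.2 m x h k hk hdk with h1 | ⟨p, h1, h2, h3, h4⟩
    · left; rw [hag m hm]; exact h1
    · right; exact ⟨p, h1, h2, by simp; omega, by rw [hag p h3]; exact h4⟩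
  · exact hN j x h k hk hdk

theorem Vals.append {v : ℕ → Fin 6} {B N : List Node} {s t s' t' : ℕ → Bool} (h : Vals v B s t)
    (hs : ∀ m < B.length, s' m = s m) (ht : ∀ m < B.length, t' m = t m)
    (hN : ∀ j x, N[j]? = some x → ok (val v x.label) (s' (B.length + j)) (t' (B.length + j))) :
    Vals v (B ++ N) s' t' := by
  intro m x hx
  rcases getElem?_append_cases hx with ⟨hm, h1⟩ | ⟨j, rfl, h1⟩
  · rw [hs m hm, ht m hm]; exact h m x h1
  · exact hN j x h1

def Good (v : ℕ → Fin 6) (B : List Node) : Prop :=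
  WF B ∧ ∃ s t : ℕ → Bool, Prop1 B s ∧ Prop1 B t ∧ Vals v B s t

theorem single_cases {y x : Node} {j : ℕ} (h : [y][j]? = some x) : j = 0 ∧ x = y := by
  rcases j with _ | j
  · simp at h; exact ⟨rfl, h.symm⟩
  · simp at h

theorem pair_cases {y z x : Node} {j : ℕ} (h : [y, z][j]? = some x) :
    (j = 0 ∧ x = y) ∨ (j = 1 ∧ x = z) := by
  rcases j with _ | _ | j
  · simp at h; exact Or.inl ⟨rfl, h.symm⟩
  · simp at h; exact Or.inr ⟨rfl, h.symm⟩
  · simp at h

/-- adding one non-critical node -/
theorem good_one {v : ℕ → Fin 6} {B : List Node} (hB : WF B) {s t : ℕ → Bool} (hs : Prop1 B s)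
    (ht : Prop1 B t) (hv : Vals v B s t) (a : Fm) (I : List ℕ) (hI : I ≠ [])
    (hI' : ∀ k ∈ I, k < B.length) (e f : Bool) (he : ∀ k ∈ I, s k = true → e = true)
    (hf : ∀ k ∈ I, t k = true → f = true) (ha : ok (val v a) e f) :
    Good v (B ++ [⟨a, I, none⟩]) := by
  refine ⟨hB.append ?_, ext2 B.length s e e, ext2 B.length t f f,
    hs.append hB (fun m hm => ext2_lt hm) ?_, ht.append hB (fun m hm => ext2_lt hm) ?_,
    hv.append (fun m hm => ext2_lt hm) (fun m hm => ext2_lt hm) ?_⟩
  · intro x hx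
    simp only [List.mem_singleton] at hx
    subst hx
    exact ⟨hI', hI⟩
  · intro j x hx k hk hdk
    obtain ⟨rfl, rfl⟩ := single_cases hx
    rw [ext2_lt (hI' k hk)] at hdk
    left; simpa [ext2_n] using he k hk hdk
  · intro j x hx k hk hdk
    obtain ⟨rfl, rfl⟩ := single_cases hx
    rw [ext2_lt (hI' k hk)] at hdk
    left; simpa [ext2_n] using hf k hk hdk
  · intro j x hx
    obtain ⟨rfl, rfl⟩ := single_cases hx
    simpa [ext2_n] using ha

/-- adding two nodes with the same single input -/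
theorem good_two {v : ℕ → Fin 6} {B : List Node} (hB : WF B) {s t : ℕ → Bool} (hs : Prop1 B s)
    (ht : Prop1 B t) (hv : Vals v B s t) (a b : Fm) (i : ℕ) (hi : i < B.length)
    (p q : Option ℕ) (s1 t1 s2 t2 : Bool)
    (ha : ok (val v a) s1 t1) (hb : ok (val v b) s2 t2)
    (h1 : s i = true → (s1 = true ∧ s2 = true) ∨
      (p = some (B.length + 1) ∧ q = some B.length ∧ (s1 = true ∨ s2 = true)))
    (h2 : t i = true → (t1 = true ∧ t2 = true) ∨
      (p = some (B.length + 1) ∧ q = some B.length ∧ (t1 = true ∨ t2 = true))) :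
    Good v (B ++ [⟨a, [i], p⟩, ⟨b, [i], q⟩]) := by
  have aux : ∀ (d : ℕ → Bool) (e1 e2 : Bool), Prop1 B d → (d i = true → (e1 = true ∧ e2 = true) ∨
      (p = some (B.length + 1) ∧ q = some B.length ∧ (e1 = true ∨ e2 = true))) →
      Prop1 (B ++ [⟨a, [i], p⟩, ⟨b, [i], q⟩]) (ext2 B.length d e1 e2) := by
    intro d e1 e2 hd h
    refine hd.append hB (fun m hm => ext2_lt hm) ?_
    intro j x hx k hk hdk
    rcases pair_cases hx with ⟨rfl, rfl⟩ | ⟨rfl, rfl⟩
    · simp only [List.mem_singleton] at hk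
      subst hk
      rw [ext2_lt hi] at hdk
      rcases h hdk with ⟨h1, _⟩ | ⟨rfl, rfl, h1 | h1⟩
      · left; simpa [ext2_n] using h1
      · left; simpa [ext2_n] using h1
      · right; exact ⟨B.length + 1, rfl, by omega, by simp, by simpa [ext2_succ] using h1⟩
    · simp only [List.mem_singleton] at hk
      subst hk
      rw [ext2_lt hi] at hdk
      rcases h hdk with ⟨_, h1⟩ | ⟨rfl, rfl, h1 | h1⟩
      · left; simpa [ext2_succ] using h1
      · right; exact ⟨B.length, rfl, by omega, by simp, by simpa [ext2_n] using h1⟩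
      · left; simpa [ext2_succ] using h1
  refine ⟨hB.append ?_, ext2 B.length s s1 s2, ext2 B.length t t1 t2, aux s s1 s2 hs h1,
    aux t t1 t2 ht h2, hv.append (fun m hm => ext2_lt hm) (fun m hm => ext2_lt hm) ?_⟩
  · intro x hx
    simp only [List.mem_cons, List.not_mem_nil, or_false] at hx
    rcases hx with rfl | rfl <;> simpa using hi
  · intro j x hx
    rcases pair_cases hx with ⟨rfl, rfl⟩ | ⟨rfl, rfl⟩
    · simpa [ext2_n] using ha
    · simpa [ext2_succ] using hb

theorem not_good {v : ℕ → Fin 6} {A : Set Fm} (hA : ∀ a ∈ A, val v a ≠ 0) {B : List Node}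
    (h : Closes A B) : ¬ Good v B := by
  induction h with
  | crash B h =>
    rintro ⟨hB, s, t, hs, ht, hv⟩
    obtain ⟨i, j, z, hi, hj, hpar⟩ := h
    exact ok_crash _ _ _ _ _ (hv.label hi) (hv.label hj) (demand_reaches hB hs hi.lt hpar)
      (demand_reaches hB ht hi.lt hpar)
  | conj B i a b hi _ ih =>
    rintro ⟨hB, s, t, hs, ht, hv⟩
    have := ok_conj _ _ _ _ (hv.label hi)
    exact ih (good_two hB hs ht hv a b i hi.lt none none _ _ _ _ this.1 this.2
      (fun h => Or.inl ⟨h, h⟩) (fun h => Or.inl ⟨h, h⟩))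
  | negDisj B i a b hi _ ih =>
    rintro ⟨hB, s, t, hs, ht, hv⟩
    have := ok_negDisj _ _ _ _ (hv.label hi)
    exact ih (good_two hB hs ht hv (.neg a) (.neg b) i hi.lt none none _ _ _ _ this.1 this.2
      (fun h => Or.inl ⟨h, h⟩) (fun h => Or.inl ⟨h, h⟩))
  | negNeg B i a hi _ ih =>
    rintro ⟨hB, s, t, hs, ht, hv⟩
    exact ih (good_one hB hs ht hv a [i] (by simp) (by simpa using hi.lt) (s i) (t i) (by simp)
      (by simp) (ok_negNeg _ _ _ (hv.label hi)))
  | negConj B i a b hi _ _ ih1 ih2 =>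
    rintro ⟨hB, s, t, hs, ht, hv⟩
    rcases ok_negConj _ _ _ _ (hv.label hi) with h | h
    · exact ih1 (good_one hB hs ht hv (.neg a) [i] (by simp) (by simpa using hi.lt) (s i) (t i)
        (by simp) (by simp) h)
    · exact ih2 (good_one hB hs ht hv (.neg b) [i] (by simp) (by simpa using hi.lt) (s i) (t i)
        (by simp) (by simp) h)
  | disj B i a b hi _ _ ih1 ih2 =>
    rintro ⟨hB, s, t, hs, ht, hv⟩
    rcases ok_disj _ _ _ _ (hv.label hi) with h | h
    · exact ih1 (good_one hB hs ht hv a [i] (by simp) (by simpa using hi.lt) (s i) (t i)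
        (by simp) (by simp) h)
    · exact ih2 (good_one hB hs ht hv b [i] (by simp) (by simpa using hi.lt) (s i) (t i)
        (by simp) (by simp) h)
  | modusPonens B i j a b hi hj _ ih =>
    rintro ⟨hB, s, t, hs, ht, hv⟩
    refine ih (good_one hB hs ht hv b [i, j] (by simp) (by simpa using ⟨hi.lt, hj.lt⟩)
      (s i || s j) (t i || t j) ?_ ?_ (ok_mp _ _ _ _ _ _ (hv.label hi) (hv.label hj)))
    · intro k hk h
      simp only [List.mem_cons, List.not_mem_nil, or_false] at hk
      rcases hk with rfl | rfl <;> simp [h]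
    · intro k hk h
      simp only [List.mem_cons, List.not_mem_nil, or_false] at hk
      rcases hk with rfl | rfl <;> simp [h]
  | counterCase B i a b hi _ ih =>
    rintro ⟨hB, s, t, hs, ht, hv⟩
    obtain ⟨s1, t1, s2, t2, h1, h2, h3, h4⟩ := ok_counter _ _ _ _ (hv.label hi)
    exact ih (good_two hB hs ht hv a (.neg b) i hi.lt _ _ s1 t1 s2 t2 h1 h2
      (fun h => Or.inr ⟨rfl, rfl, h3 h⟩) (fun h => Or.inr ⟨rfl, rfl, h4 h⟩))
  | recursive B i a b hi hab _ ih =>
    rintro ⟨hB, s, t, hs, ht, hv⟩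
    exact ih (good_one hB hs ht hv b [i] (by simp) (by simpa using hi.lt) (s i) (t i) (by simp)
      (by simp) (ok_rec _ _ _ _ (hv.label hi) (hA _ hab)))

/-- Every acceptable formula takes a designated value in the crystal matrix. -/
theorem acceptable_valid {a : Fm} (ha : a ∈ Acceptable) (v : ℕ → Fin 6) : val v a ≠ 0 := by
  have : {b : Fm | val v b ≠ 0} ∈ {A : Set Fm | ∀ a : Fm, Closes A [⟨.neg a, [], none⟩] → a ∈ A} := by
    intro b hb h0
    refine not_good (v := v) (fun _ h => h) hb ⟨⟨by simp, ?_⟩, fun _ => true, fun _ => true,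
      ⟨rfl, fun _ _ _ _ _ _ => Or.inl rfl⟩, ⟨rfl, fun _ _ _ _ _ _ => Or.inl rfl⟩, ?_⟩
    · intro m x hx
      obtain ⟨rfl, rfl⟩ := single_cases hx
      simp
    · intro m x hx
      obtain ⟨rfl, rfl⟩ := single_cases hx
      exact ok_root _ h0
  exact ha _ this

theorem val_const (v : ℕ → Fin 6) (c : Fin 6) (hc : c = 2 ∨ c = 3) (a : Fm)
    (h : ∀ n ∈ a.letters, v n = c) : val v a = c := by
  induction a with
  | letter n => exact h n (by simp [Fm.letters])
  | neg a ih =>
    simp only [val, ih h]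
    rcases hc with rfl | rfl <;> decide
  | conj a b iha ihb =>
    simp only [Fm.letters, Finset.mem_union] at h
    simp only [val, iha fun n hn => h n (Or.inl hn), ihb fun n hn => h n (Or.inr hn)]
    rcases hc with rfl | rfl <;> decide
  | disj a b iha ihb =>
    simp only [Fm.letters, Finset.mem_union] at h
    simp only [val, iha fun n hn => h n (Or.inl hn), ihb fun n hn => h n (Or.inr hn)]
    rcases hc with rfl | rfl <;> decide
  | imp a b iha ihb =>
    simp only [Fm.letters, Finset.mem_union] at h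
    simp only [val, iha fun n hn => h n (Or.inl hn), ihb fun n hn => h n (Or.inr hn)]
    rcases hc with rfl | rfl <;> decide

/-- Letter-sharing. -/
theorem letter_sharing (a b : Fm) (h : Fm.imp a b ∈ Acceptable) :
    ∃ n : ℕ, n ∈ a.letters ∧ n ∈ b.letters := by
  by_contra hc
  push Not at hc
  have := acceptable_valid h (fun n => if n ∈ a.letters then 2 else 3)
  apply this
  simp only [val]
  rw [val_const _ 2 (Or.inl rfl) a (fun n hn => by simp [hn]),
    val_const _ 3 (Or.inr rfl) b (fun n hn => by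
      have : n ∉ a.letters := fun h => hc n h hn
      simp [this])]
  decide

theorem nontrivial : ∃ a : Fm, (∀ v : ℕ → Prop, a.Holds v) ∧ a ∉ Acceptable := by
  refine ⟨.imp (.conj (.letter 0) (.neg (.letter 0))) (.letter 1), fun v => ?_, fun h => ?_⟩
  · simp [Fm.Holds]
  · obtain ⟨n, h1, h2⟩ := letter_sharing _ _ h
    simp [Fm.letters] at h1 h2
    omega

end Pool.Agent.P.MP_dcacc7_lc
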