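import Pool.Agent.P.MP_dcacc7_lc.Sound

open Pool.Agent.P.MP_dcacc7_lc in
theorem Pool.Agent.P.MP_dcacc7_lc.VariantNonTrivial.result :
    ∃ a : Fm, (∀ v : ℕ → Prop, a.Holds v) ∧ a ∉ Acceptable :=
  Pool.Agent.P.MP_dcacc7_lc.nontrivial
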